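import Mathlib

/-!
# The hypercube: characters, the sensitivity theorem

The points of the cube `{0, 1}^n` are the subsets of `Fin n`.
-/

open scoped symmDiff

namespace Pool.Agent.Helper903_S

variable {n : ℕ}

/-- the character `(-1)^|S ∩ x|` -/
noncomputable def ch (S x : Finset (Fin n)) : ℝ := ∏ k : Fin n, if k ∈ S ∧ k ∈ x then (-1 : ℝ) else 1

theorem ch_comm (S x : Finset (Fin n)) : ch S x = ch x S := by
  unfold ch
  refine Finset.prod_congr rfl fun k _ => ?_
  by_cases h1 : k ∈ S <;> by_cases h2 : k ∈ x <;> simp [h1, h2]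

theorem ch_symmDiff (S x T : Finset (Fin n)) : ch S (x ∆ T) = ch S x * ch S T := by
  unfold ch
  rw [← Finset.prod_mul_distrib]
  refine Finset.prod_congr rfl fun k _ => ?_
  by_cases h1 : k ∈ S <;> by_cases h2 : k ∈ x <;> by_cases h3 : k ∈ T <;>
    simp [h1, h2, h3, Finset.mem_symmDiff]

theorem ch_single (S : Finset (Fin n)) (i : Fin n) : ch S {i} = if i ∈ S then -1 else 1 := by
  unfold ch
  have : ∀ k : Fin n, (if k ∈ S ∧ k ∈ ({i} : Finset (Fin n)) then (-1 : ℝ) else 1) =
      if k = i then (if i ∈ S then -1 else 1) else 1 := by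
    intro k
    by_cases h : k = i
    · subst h; simp
    · simp [h]
  rw [Finset.prod_congr rfl fun k _ => this k, Finset.prod_ite_eq' Finset.univ i]
  simp

theorem ch_sq (S x : Finset (Fin n)) : ch S x * ch S x = 1 := by
  unfold ch
  rw [← Finset.prod_mul_distrib]
  refine Finset.prod_eq_one fun k _ => ?_
  split_ifs <;> norm_num

theorem ch_flip (S x : Finset (Fin n)) (i : Fin n) :
    ch S (x ∆ {i}) = ch S x * if i ∈ S then -1 else 1 := by
  rw [ch_symmDiff, ch_single]

/-- the flip of a fixed set is a permutation of the cube -/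
def flipE (T : Finset (Fin n)) : Finset (Fin n) ≃ Finset (Fin n) where
  toFun x := x ∆ T
  invFun x := x ∆ T
  left_inv x := by simp
  right_inv x := by simp

theorem sum_ch (W : Finset (Fin n)) (hW : W.Nonempty) : ∑ x, ch W x = 0 := by
  obtain ⟨w, hw⟩ := hW
  have h1 : ∑ x, ch W x = ∑ x, ch W (x ∆ {w}) := (Equiv.sum_comp (flipE {w}) (ch W)).symm
  have h2 : ∑ x, ch W (x ∆ {w}) = - ∑ x, ch W x := by
    rw [← Finset.sum_neg_distrib]
    refine Finset.sum_congr rfl fun x _ => ?_
    rw [ch_flip, if_pos hw]; ring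
  linarith

theorem ch_empty (x : Finset (Fin n)) : ch ∅ x = 1 := by
  unfold ch; simp

theorem sum_ch' (w : Finset (Fin n)) : ∑ U, ch U w = if w = ∅ then (2 : ℝ) ^ n else 0 := by
  have h : ∑ U, ch U w = ∑ U, ch w U := Finset.sum_congr rfl fun U _ => ch_comm U w
  rw [h]
  split_ifs with hw
  · subst hw
    simp [ch_empty]
  · exact sum_ch w (Finset.nonempty_iff_ne_empty.2 hw)

/-- the signed adjacency operator in the directions of `U` -/
noncomputable def A (U : Finset (Fin n)) (φ : Finset (Fin n) → ℝ) (x : Finset (Fin n)) : ℝ :=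
  ∑ i ∈ U, ch (U.filter (· < i)) x * φ (x ∆ {i})

theorem A_A (U : Finset (Fin n)) (φ : Finset (Fin n) → ℝ) (x : Finset (Fin n)) :
    A U (A U φ) x = U.card * φ x := by
  unfold A
  have h1 : ∀ i ∈ U, ch (U.filter (· < i)) x *
      (∑ j ∈ U, ch (U.filter (· < j)) (x ∆ {i}) * φ (x ∆ {i} ∆ {j})) =
      ∑ j ∈ U, ch (U.filter (· < i)) x * (ch (U.filter (· < j)) (x ∆ {i}) * φ (x ∆ {i} ∆ {j})) := by
    intro i _
    rw [Finset.mul_sum]
  rw [Finset.sum_congr rfl h1]
  set t : Fin n → Fin n → ℝ := fun i j =>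
    ch (U.filter (· < i)) x * (ch (U.filter (· < j)) (x ∆ {i}) * φ (x ∆ {i} ∆ {j})) with ht
  have hdiag : ∀ i, t i i = φ x := by
    intro i
    simp only [ht]
    rw [ch_flip, symmDiff_assoc, symmDiff_self]
    have : i ∉ U.filter (· < i) := by simp
    rw [if_neg this, mul_one, ← mul_assoc, ch_sq, one_mul, symmDiff_bot]
  have hanti : ∀ i ∈ U, ∀ j ∈ U, i < j → t i j = - t j i := by
    intro i hi j hj hij
    simp only [ht]
    have e1 : x ∆ {i} ∆ {j} = x ∆ {j} ∆ {i} := symmDiff_right_comm _ _ _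
    rw [e1, ch_flip, ch_flip]
    have m1 : i ∈ U.filter (· < j) := by simp [hi, hij]
    have m2 : j ∉ U.filter (· < i) := by simp [hij.le]
    rw [if_pos m1, if_neg m2]
    ring
  have hanti' : ∀ i ∈ U, ∀ j ∈ U, i ≠ j → t i j = - t j i := by
    intro i hi j hj hij
    rcases lt_or_gt_of_ne hij with h | h
    · exact hanti i hi j hj h
    · rw [hanti j hj i hi h, neg_neg]
  have hsum : ∑ i ∈ U, ∑ j ∈ U, (t i j - if i = j then φ x else 0) = 0 := by
    have h2 : ∑ i ∈ U, ∑ j ∈ U, (t i j - if i = j then φ x else 0) =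
        - ∑ i ∈ U, ∑ j ∈ U, (t i j - if i = j then φ x else 0) := by
      conv_rhs => rw [Finset.sum_comm]
      rw [← Finset.sum_neg_distrib]
      refine Finset.sum_congr rfl fun i hi => ?_
      rw [← Finset.sum_neg_distrib]
      refine Finset.sum_congr rfl fun j hj => ?_
      by_cases hij : i = j
      · subst hij; rw [if_pos rfl, hdiag]; ring
      · rw [if_neg hij, if_neg (Ne.symm hij), hanti' i hi j hj hij]; ring
    linarith
  have hs2 : ∑ i ∈ U, ∑ j ∈ U, (if i = j then φ x else 0) = U.card * φ x := by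
    have : ∀ i ∈ U, ∑ j ∈ U, (if i = j then φ x else 0) = φ x := by
      intro i hi
      rw [Finset.sum_ite_eq U i, if_pos hi]
    rw [Finset.sum_congr rfl this, Finset.sum_const, nsmul_eq_mul]
  simp only [Finset.sum_sub_distrib] at hsum
  rw [hs2] at hsum
  linarith

theorem A_add (U : Finset (Fin n)) (φ ψ : Finset (Fin n) → ℝ) (x : Finset (Fin n)) :
    A U (fun z => φ z + ψ z) x = A U φ x + A U ψ x := by
  unfold A
  rw [← Finset.sum_add_distrib]
  refine Finset.sum_congr rfl fun i _ => by ring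

theorem A_smul (U : Finset (Fin n)) (c : ℝ) (φ : Finset (Fin n) → ℝ) (x : Finset (Fin n)) :
    A U (fun z => c * φ z) x = c * A U φ x := by
  unfold A
  rw [Finset.mul_sum]
  refine Finset.sum_congr rfl fun i _ => by ring

theorem ch_cases (S x : Finset (Fin n)) : ch S x = 1 ∨ ch S x = -1 := by
  have := ch_sq S x
  have h : (ch S x - 1) * (ch S x + 1) = 0 := by linarith
  rcases mul_eq_zero.1 h with h | h
  · left; linarith
  · right; linarith

/-- the even half of the cube -/
noncomputable def E (U : Finset (Fin n)) : Finset (Finset (Fin n)) := by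
  classical exact Finset.univ.filter fun x => ch U x = 1

theorem mem_E (U x : Finset (Fin n)) : x ∈ E U ↔ ch U x = 1 := by
  unfold E; simp

theorem card_E (U : Finset (Fin n)) (hU : U.Nonempty) : 2 * (E U).card = 2 ^ n := by
  classical
  have h0 := sum_ch U hU
  have h1 : ∑ x, ch U x = ∑ x, ((if x ∈ E U then (2 : ℝ) else 0) - 1) := by
    refine Finset.sum_congr rfl fun x _ => ?_
    by_cases hx : x ∈ E U
    · rw [if_pos hx, (mem_E U x).1 hx]; norm_num
    · rw [if_neg hx]
      rcases ch_cases U x with h | h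
      · exact absurd ((mem_E U x).2 h) hx
      · rw [h]; norm_num
  rw [h1, Finset.sum_sub_distrib, ← Finset.sum_filter, Finset.sum_const, Finset.sum_const] at h0
  have h2 : (Finset.univ.filter fun x => x ∈ E U) = E U := by ext x; simp
  rw [h2, Finset.card_univ, Fintype.card_finset, Fintype.card_fin] at h0
  have h3 : (2 * (E U).card : ℝ) = 2 ^ n := by
    simp only [nsmul_eq_mul, mul_one] at h0
    push_cast at h0
    linarith
  exact_mod_cast h3

/-- **Huang's theorem**, in the form used here. -/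
theorem huang (U : Finset (Fin n)) (hU : U.Nonempty) (H : Finset (Finset (Fin n)))
    (hH : 2 * Hᶜ.card < 2 ^ n) :
    ∃ x ∈ H, (U.card : ℝ) ≤ ((U.filter fun i => x ∆ {i} ∈ H).card : ℝ) ^ 2 := by
  classical
  set d : ℝ := (U.card : ℝ) with hd
  have hd0 : 0 ≤ d := by positivity
  have hdpos : 0 < √d := Real.sqrt_pos.2 (by rw [hd]; exact_mod_cast hU.card_pos)
  have hdd : √d * √d = d := Real.mul_self_sqrt hd0
  -- the linear map
  let ext : ((E U) → ℝ) → Finset (Fin n) → ℝ := fun ψ x => if h : x ∈ E U then ψ ⟨x, h⟩ else 0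
  have hext_add : ∀ ψ₁ ψ₂, ext (ψ₁ + ψ₂) = fun x => ext ψ₁ x + ext ψ₂ x := by
    intro ψ₁ ψ₂; funext x; simp only [ext]; split_ifs <;> simp
  have hext_smul : ∀ (c : ℝ) ψ, ext (c • ψ) = fun x => c * ext ψ x := by
    intro c ψ; funext x; simp only [ext]; split_ifs <;> simp
  let Φ : ((E U) → ℝ) →ₗ[ℝ] ((Hᶜ : Finset (Finset (Fin n))) → ℝ) :=
    { toFun := fun ψ x => A U (ext ψ) x + √d * ext ψ x
      map_add' := by
        intro ψ₁ ψ₂; funext x
        simp only [hext_add, A_add, Pi.add_apply]; ring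
      map_smul' := by
        intro c ψ; funext x
        simp only [hext_smul, A_smul, Pi.smul_apply, smul_eq_mul, RingHom.id_apply]; ring }
  have hker : LinearMap.ker Φ ≠ ⊥ := by
    apply LinearMap.ker_ne_bot_of_finrank_lt
    rw [Module.finrank_fintype_fun_eq_card, Module.finrank_fintype_fun_eq_card,
      Fintype.card_coe, Fintype.card_coe]
    have := card_E U hU
    omega
  obtain ⟨ψ, hψ, hψ0⟩ := (Submodule.ne_bot_iff _).1 hker
  set φ : Finset (Fin n) → ℝ := fun x => A U (ext ψ) x + √d * ext ψ x with hφ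
  have hφH : ∀ x, x ∉ H → φ x = 0 := by
    intro x hx
    have h1 : Φ ψ = 0 := hψ
    have h2 := congrFun h1 ⟨x, Finset.mem_compl.2 hx⟩
    exact h2
  -- `φ` is an eigenfunction
  have hAφ : ∀ x, A U φ x = √d * φ x := by
    intro x
    have h1 : A U φ x = A U (fun z => A U (ext ψ) z + (fun z => √d * ext ψ z) z) x := rfl
    rw [h1, A_add, A_smul]
    have h2 : A U (fun z => A U (ext ψ) z) x = d * ext ψ x := A_A U (ext ψ) x
    rw [h2, hφ]
    simp only
    rw [mul_add, ← mul_assoc, hdd]; ring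
  -- `φ ≠ 0`
  have hφ0 : ∃ x, φ x ≠ 0 := by
    by_contra hcon
    push Not at hcon
    apply hψ0
    funext ⟨x, hx⟩
    have h1 := hcon x
    simp only [hφ] at h1
    have h2 : A U (ext ψ) x = 0 := by
      unfold A
      refine Finset.sum_eq_zero fun i hi => ?_
      have : x ∆ {i} ∉ E U := by
        rw [mem_E, ch_flip, if_pos hi, (mem_E U x).1 hx]; norm_num
      simp only [ext, dif_neg this, mul_zero]
    rw [h2, zero_add] at h1
    have h3 : ext ψ x = 0 := by
      rcases mul_eq_zero.1 h1 with h | h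
      · exact absurd h hdpos.ne'
      · exact h
    have h4 : ψ ⟨x, hx⟩ = 0 := by simpa only [ext, dif_pos hx] using h3
    exact h4
  -- the maximum
  obtain ⟨x, -, hx⟩ := Finset.exists_max_image (Finset.univ : Finset (Finset (Fin n)))
    (fun x => |φ x|) Finset.univ_nonempty
  have hxpos : 0 < |φ x| := by
    obtain ⟨z, hz⟩ := hφ0
    exact lt_of_lt_of_le (abs_pos.2 hz) (hx z (Finset.mem_univ z))
  have hxH : x ∈ H := by
    by_contra hcon
    rw [hφH x hcon, abs_zero] at hxpos
    exact lt_irrefl _ hxpos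
  refine ⟨x, hxH, ?_⟩
  set m : ℝ := ((U.filter fun i => x ∆ {i} ∈ H).card : ℝ) with hm
  have hmain : √d * |φ x| ≤ m * |φ x| := by
    have h1 : √d * |φ x| = |A U φ x| := by
      rw [hAφ, abs_mul, abs_of_pos hdpos]
    rw [h1]
    unfold A
    have h2 : ∑ i ∈ U, ch (U.filter (· < i)) x * φ (x ∆ {i}) =
        ∑ i ∈ U.filter (fun i => x ∆ {i} ∈ H), ch (U.filter (· < i)) x * φ (x ∆ {i}) := by
      rw [Finset.sum_filter]
      refine Finset.sum_congr rfl fun i _ => ?_
      split_ifs with h
      · rfl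
      · rw [hφH _ h, mul_zero]
    rw [h2]
    refine le_trans (Finset.abs_sum_le_sum_abs _ _) ?_
    refine le_trans (Finset.sum_le_sum (g := fun _ => |φ x|) fun i _ => ?_) ?_
    · rw [abs_mul]
      have h3 : |ch (U.filter (· < i)) x| = 1 := by
        rcases ch_cases (U.filter (· < i)) x with h | h <;> rw [h] <;> norm_num
      rw [h3, one_mul]
      exact hx _ (Finset.mem_univ _)
    · rw [Finset.sum_const, nsmul_eq_mul]
  have h4 : √d ≤ m := le_of_mul_le_mul_right hmain hxpos
  have h5 : √d * √d ≤ m * m := mul_self_le_mul_self hdpos.le h4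
  rw [hdd] at h5
  rw [pow_two]
  exact h5

end Pool.Agent.Helper903_S
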