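import Pool.Agent.Helper903_S.A

/-!
# Functions of low sensitivity: the number of nonzero discrete derivatives at some point
-/

open scoped symmDiff

namespace Pool.Agent.Helper903_S

variable {n : ℕ}

/-- the sensitivity of `f` at `x` -/
def sens (f : Finset (Fin n) → Bool) (x : Finset (Fin n)) : ℕ :=
  (Finset.univ.filter fun i : Fin n => f (x ∆ {i}) ≠ f x).card

/-- the indicator of `f` -/
def ind (f : Finset (Fin n) → Bool) (x : Finset (Fin n)) : ℤ := if f x then 1 else 0

/-- unnormalised Fourier coefficients -/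
noncomputable def hat (F : Finset (Fin n) → ℝ) (U : Finset (Fin n)) : ℝ := ∑ x, F x * ch U x

theorem parseval (F : Finset (Fin n) → ℝ) : ∑ U, hat F U ^ 2 = 2 ^ n * ∑ x, F x ^ 2 := by
  unfold hat
  have h1 : ∀ U : Finset (Fin n), (∑ x, F x * ch U x) ^ 2 =
      ∑ x, ∑ z, F x * F z * ch U (x ∆ z) := by
    intro U
    rw [pow_two, Finset.sum_mul_sum]
    refine Finset.sum_congr rfl fun x _ => Finset.sum_congr rfl fun z _ => ?_
    rw [ch_symmDiff]; ring
  rw [Finset.sum_congr rfl fun U _ => h1 U, Finset.sum_comm]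
  rw [Finset.mul_sum]
  refine Finset.sum_congr rfl fun x _ => ?_
  rw [Finset.sum_comm]
  have h2 : ∀ z : Finset (Fin n), ∑ U, F x * F z * ch U (x ∆ z) =
      if z = x then F x * F x * 2 ^ n else 0 := by
    intro z
    rw [← Finset.mul_sum, sum_ch']
    by_cases h : z = x
    · subst h; simp
    · have : ¬ x ∆ z = ∅ := by
        intro hh
        apply h
        have := symmDiff_eq_bot.1 (show x ∆ z = ⊥ from hh)
        exact this.symm
      rw [if_neg this, if_neg h, mul_zero]
  rw [Finset.sum_congr rfl fun z _ => h2 z, Finset.sum_ite_eq' Finset.univ x]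
  simp; ring

/-- A nonzero Fourier coefficient at `U` forces `|U| ≤ s ^ 2`. -/
theorem degree_le (f : Finset (Fin n) → Bool) (s : ℕ) (hs : ∀ x, sens f x ≤ s)
    (U : Finset (Fin n)) (hU : hat (fun x => (ind f x : ℝ)) U ≠ 0) : U.card ≤ s ^ 2 := by
  classical
  rcases U.eq_empty_or_nonempty with h0 | hne
  · rw [h0]; simp
  -- the two halves
  set H : Finset (Finset (Fin n)) := Finset.univ.filter fun x => (f x = true ↔ ch U x = 1) with hH
  have hkey : ∀ G : Finset (Finset (Fin n)), (G = H ∨ G = Hᶜ) → 2 * Gᶜ.card < 2 ^ n →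
      U.card ≤ s ^ 2 := by
    intro G hG hcard
    obtain ⟨x, hx, hxU⟩ := huang U hne G hcard
    have hsub : (U.filter fun i => x ∆ {i} ∈ G) ⊆
        Finset.univ.filter fun i : Fin n => f (x ∆ {i}) ≠ f x := by
      intro i hi
      rw [Finset.mem_filter] at hi
      rw [Finset.mem_filter]
      refine ⟨Finset.mem_univ _, ?_⟩
      have hch : ch U (x ∆ {i}) = - ch U x := by
        rw [ch_flip, if_pos hi.1]; ring
      have hmem : (x ∈ H ↔ x ∆ {i} ∈ H) := by
        rcases hG with rfl | rfl
        · exact ⟨fun _ => hi.2, fun _ => hx⟩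
        · have h1 := hi.2
          rw [Finset.mem_compl] at h1 hx
          exact ⟨fun h => absurd h hx, fun h => absurd h h1⟩
      intro heq
      simp only [hH, Finset.mem_filter, Finset.mem_univ, true_and, heq, hch] at hmem
      rcases ch_cases U x with h | h
      · rw [h] at hmem
        norm_num at hmem
      · rw [h] at hmem
        norm_num at hmem
    have h2 : ((U.filter fun i => x ∆ {i} ∈ G).card : ℝ) ≤ s := by
      exact_mod_cast le_trans (Finset.card_le_card hsub) (hs x)
    have h3 : (U.card : ℝ) ≤ (s : ℝ) ^ 2 :=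
      le_trans hxU (pow_le_pow_left₀ (by positivity) h2 2)
    exact_mod_cast h3
  -- not both halves are exact
  have hne2 : 2 * H.card ≠ 2 ^ n := by
    intro hc
    apply hU
    unfold hat
    have h1 : ∑ x, (ind f x : ℝ) * ch U x = ∑ x, ((if x ∈ H then (1 : ℝ) else 0) - 1 / 2
        + 1 / 2 * ch U x) := by
      refine Finset.sum_congr rfl fun x _ => ?_
      unfold ind
      rcases ch_cases U x with h | h
      · by_cases hf : f x = true
        · have : x ∈ H := by simp [hH, hf, h]
          rw [if_pos this, if_pos hf, h]; norm_num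
        · have : x ∉ H := by simp [hH, hf, h]
          rw [if_neg this, if_neg hf, h]; norm_num
      · by_cases hf : f x = true
        · have : x ∉ H := by
            simp only [hH, Finset.mem_filter, Finset.mem_univ, true_and, hf, h]; norm_num
          rw [if_neg this, if_pos hf, h]; norm_num
        · have : x ∈ H := by
            simp only [hH, Finset.mem_filter, Finset.mem_univ, true_and, hf, h]; norm_num
          rw [if_pos this, if_neg hf, h]; norm_num
    rw [h1, Finset.sum_add_distrib, Finset.sum_sub_distrib, ← Finset.mul_sum, sum_ch U hne,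
      ← Finset.sum_filter, Finset.sum_const, Finset.sum_const]
    have h2 : (Finset.univ.filter fun x => x ∈ H) = H := by ext x; simp
    rw [h2, Finset.card_univ, Fintype.card_finset, Fintype.card_fin]
    have h3 : (2 * H.card : ℝ) = 2 ^ n := by exact_mod_cast hc
    simp only [nsmul_eq_mul]
    push_cast
    linarith
  have htot : H.card + Hᶜ.card = 2 ^ n := by
    rw [Finset.card_add_card_compl, Fintype.card_finset, Fintype.card_fin]
  rcases lt_or_gt_of_ne hne2 with h | h
  · exact hkey Hᶜ (Or.inr rfl) (by rw [compl_compl]; exact h)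
  · exact hkey H (Or.inl rfl) (by omega)

/-- the discrete derivative of `f` at `y` in the directions of `S` -/
def der (f : Finset (Fin n) → Bool) (y S : Finset (Fin n)) : ℤ :=
  ∑ T ∈ S.powerset, (-1) ^ T.card * ind f (y ∆ T)

theorem hat_der (f : Finset (Fin n) → Bool) (S U : Finset (Fin n)) :
    hat (fun y => (der f y S : ℝ)) U =
      (if S ⊆ U then (2 : ℝ) ^ S.card else 0) * hat (fun x => (ind f x : ℝ)) U := by
  unfold hat der
  have h1 : ∀ y : Finset (Fin n), ((∑ T ∈ S.powerset, (-1) ^ T.card * ind f (y ∆ T) : ℤ) : ℝ) *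
      ch U y = ∑ T ∈ S.powerset, (-1 : ℝ) ^ T.card * ((ind f (y ∆ T) : ℝ) * ch U y) := by
    intro y
    push_cast
    rw [Finset.sum_mul]
    refine Finset.sum_congr rfl fun T _ => by ring
  rw [Finset.sum_congr rfl fun y _ => h1 y, Finset.sum_comm]
  have h2 : ∀ T ∈ S.powerset, ∑ y, (-1 : ℝ) ^ T.card * ((ind f (y ∆ T) : ℝ) * ch U y) =
      ((-1 : ℝ) ^ T.card * ch U T) * ∑ x, (ind f x : ℝ) * ch U x := by
    intro T _
    rw [← Finset.mul_sum]
    have h3 : ∑ y, (ind f (y ∆ T) : ℝ) * ch U y = ∑ x, (ind f x : ℝ) * ch U x * ch U T := by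
      rw [← Equiv.sum_comp (flipE T) fun x => (ind f x : ℝ) * ch U x * ch U T]
      refine Finset.sum_congr rfl fun y _ => ?_
      show (ind f (y ∆ T) : ℝ) * ch U y = (ind f (y ∆ T) : ℝ) * ch U (y ∆ T) * ch U T
      rw [ch_symmDiff, mul_assoc, mul_assoc, ch_sq, mul_one]
    rw [h3, ← Finset.sum_mul]; ring
  rw [Finset.sum_congr rfl h2, ← Finset.sum_mul]
  congr 1
  -- the product formula
  have h4 : ∀ T ∈ S.powerset, (-1 : ℝ) ^ T.card * ch U T =
      ∏ k ∈ T, (if k ∈ U then (1 : ℝ) else -1) := by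
    intro T _
    have h5 : ch U T = ∏ k ∈ T, (if k ∈ U then (-1 : ℝ) else 1) := by
      unfold ch
      rw [← Finset.prod_filter_mul_prod_filter_not Finset.univ (fun k => k ∈ T)]
      have e1 : (Finset.univ.filter fun k => k ∈ T) = T := by ext x; simp
      rw [e1]
      have e2 : ∏ k ∈ Finset.univ.filter (fun k => ¬ k ∈ T),
          (if k ∈ U ∧ k ∈ T then (-1 : ℝ) else 1) = 1 := by
        refine Finset.prod_eq_one fun k hk => ?_
        rw [Finset.mem_filter] at hk
        rw [if_neg (fun h => hk.2 h.2)]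
      rw [e2, mul_one]
      refine Finset.prod_congr rfl fun k hk => ?_
      simp [hk]
    rw [h5, ← Finset.prod_const, ← Finset.prod_mul_distrib]
    refine Finset.prod_congr rfl fun k _ => ?_
    split_ifs <;> norm_num
  rw [Finset.sum_congr rfl h4, ← Finset.prod_one_add]
  split_ifs with hSU
  · rw [← Finset.prod_const]
    refine Finset.prod_congr rfl fun k hk => ?_
    rw [if_pos (hSU hk)]; norm_num
  · obtain ⟨k, hk, hkU⟩ := Finset.not_subset.1 hSU
    refine Finset.prod_eq_zero hk ?_
    rw [if_neg hkU]; norm_num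

theorem sum_der_sq (f : Finset (Fin n) → Bool) (D : ℕ)
    (hD : ∀ U, hat (fun x => (ind f x : ℝ)) U ≠ 0 → U.card ≤ D) (r : ℕ) :
    ∑ S ∈ (Finset.univ : Finset (Fin n)).powersetCard r, ∑ y, (der f y S : ℝ) ^ 2 ≤
      4 ^ r * D.choose r * 2 ^ n := by
  have h1 : ∀ S ∈ (Finset.univ : Finset (Fin n)).powersetCard r,
      2 ^ n * ∑ y, (der f y S : ℝ) ^ 2 =
      ∑ U, (if S ⊆ U then (4 : ℝ) ^ r else 0) * hat (fun x => (ind f x : ℝ)) U ^ 2 := by
    intro S hS
    rw [Finset.mem_powersetCard] at hS
    rw [← parseval]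
    refine Finset.sum_congr rfl fun U _ => ?_
    rw [hat_der, mul_pow]
    congr 1
    split_ifs
    · rw [hS.2, ← pow_mul, mul_comm, pow_mul]; norm_num
    · norm_num
  have h2 : 2 ^ n * ∑ S ∈ (Finset.univ : Finset (Fin n)).powersetCard r,
      ∑ y, (der f y S : ℝ) ^ 2 =
      ∑ U, (4 : ℝ) ^ r * (U.card.choose r) * hat (fun x => (ind f x : ℝ)) U ^ 2 := by
    rw [Finset.mul_sum, Finset.sum_congr rfl h1, Finset.sum_comm]
    refine Finset.sum_congr rfl fun U _ => ?_
    rw [← Finset.sum_mul]
    congr 1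
    rw [← Finset.sum_filter, Finset.sum_const, nsmul_eq_mul, mul_comm]
    congr 2
    have : (((Finset.univ : Finset (Fin n)).powersetCard r).filter fun S => S ⊆ U) =
        U.powersetCard r := by
      ext S; simp only [Finset.mem_filter, Finset.mem_powersetCard]
      exact ⟨fun h => ⟨h.2, h.1.2⟩, fun h => ⟨⟨Finset.subset_univ _, h.2⟩, h.1⟩⟩
    rw [this, Finset.card_powersetCard]
  have h3 : ∑ U, (4 : ℝ) ^ r * (U.card.choose r) * hat (fun x => (ind f x : ℝ)) U ^ 2 ≤
      ∑ U, (4 : ℝ) ^ r * (D.choose r) * hat (fun x => (ind f x : ℝ)) U ^ 2 := by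
    refine Finset.sum_le_sum fun U _ => ?_
    by_cases h : hat (fun x => (ind f x : ℝ)) U = 0
    · rw [h]; simp
    · have h4 : (U.card.choose r : ℝ) ≤ D.choose r := by
        exact_mod_cast Nat.choose_le_choose r (hD U h)
      have h5 : 0 ≤ hat (fun x => (ind f x : ℝ)) U ^ 2 := sq_nonneg _
      gcongr
  have h4 : ∑ x, ((ind f x : ℝ)) ^ 2 ≤ 2 ^ n := by
    have : ∑ x : Finset (Fin n), ((ind f x : ℝ)) ^ 2 ≤ ∑ _x : Finset (Fin n), (1 : ℝ) := by
      refine Finset.sum_le_sum fun x _ => ?_
      unfold ind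
      split_ifs <;> norm_num
    refine le_trans this ?_
    simp
  rw [← Finset.mul_sum, parseval] at h3
  have h6 : (0 : ℝ) < 2 ^ n := by positivity
  have h7 : 2 ^ n * ∑ S ∈ (Finset.univ : Finset (Fin n)).powersetCard r,
      ∑ y, (der f y S : ℝ) ^ 2 ≤ 2 ^ n * (4 ^ r * D.choose r * 2 ^ n) := by
    rw [h2]
    refine le_trans h3 ?_
    have h8 : (0 : ℝ) ≤ 4 ^ r * D.choose r := by positivity
    calc (4 : ℝ) ^ r * D.choose r * (2 ^ n * ∑ x, ((ind f x : ℝ)) ^ 2)
        ≤ (4 : ℝ) ^ r * D.choose r * (2 ^ n * 2 ^ n) := by gcongr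
      _ = 2 ^ n * (4 ^ r * D.choose r * 2 ^ n) := by ring
  exact le_of_mul_le_mul_left h7 h6

/-- **The count of nonzero derivatives.** At some point `y` at most
`∑_{r ≤ 2 s} 4 ^ r binom(s ^ 2, r)` of the derivatives of order at most `2 s` do not vanish. -/
theorem exists_point (f : Finset (Fin n) → Bool) (s : ℕ) (hs : ∀ x, sens f x ≤ s) :
    ∃ y, ((Finset.univ : Finset (Finset (Fin n))).filter
      fun S => S.card ≤ 2 * s ∧ der f y S ≠ 0).card ≤
      ∑ r ∈ Finset.range (2 * s + 1), 4 ^ r * (s ^ 2).choose r := by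
  classical
  by_contra hcon
  push Not at hcon
  set K : ℕ := ∑ r ∈ Finset.range (2 * s + 1), 4 ^ r * (s ^ 2).choose r with hK
  have h1 : ∑ r ∈ Finset.range (2 * s + 1),
      ∑ S ∈ (Finset.univ : Finset (Fin n)).powersetCard r, ∑ y, (der f y S : ℝ) ^ 2 ≤
      (K : ℝ) * 2 ^ n := by
    rw [hK]; push_cast; rw [Finset.sum_mul]
    refine Finset.sum_le_sum fun r _ => ?_
    exact_mod_cast sum_der_sq f (s ^ 2) (degree_le f s hs) r
  have h2 : ∑ y : Finset (Fin n), (((Finset.univ : Finset (Finset (Fin n))).filter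
      fun S => S.card ≤ 2 * s ∧ der f y S ≠ 0).card : ℝ) ≤
      ∑ r ∈ Finset.range (2 * s + 1),
      ∑ S ∈ (Finset.univ : Finset (Fin n)).powersetCard r, ∑ y, (der f y S : ℝ) ^ 2 := by
    have h3 : ∑ r ∈ Finset.range (2 * s + 1),
        ∑ S ∈ (Finset.univ : Finset (Fin n)).powersetCard r, ∑ y, (der f y S : ℝ) ^ 2 =
        ∑ y, ∑ S ∈ (Finset.univ : Finset (Finset (Fin n))).filter fun S => S.card ≤ 2 * s,
          (der f y S : ℝ) ^ 2 := by
      rw [Finset.sum_comm' (s := Finset.univ) (t := fun _ => (Finset.univ : Finset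
        (Finset (Fin n))).filter fun S => S.card ≤ 2 * s)
        (t' := (Finset.univ : Finset (Finset (Fin n))).filter fun S => S.card ≤ 2 * s)
        (s' := fun _ => Finset.univ) (by intro x y; simp)]
      rw [← Finset.sum_fiberwise_of_maps_to (s := (Finset.univ : Finset
        (Finset (Fin n))).filter fun S => S.card ≤ 2 * s) (t := Finset.range (2 * s + 1))
        (g := fun S => S.card) (by
          intro S hS
          rw [Finset.mem_filter] at hS
          exact Finset.mem_range.2 (by omega))]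
      refine Finset.sum_congr rfl fun r hr => ?_
      refine Finset.sum_congr ?_ fun _ _ => rfl
      ext S
      rw [Finset.mem_range] at hr
      simp only [Finset.mem_powersetCard, Finset.mem_filter, Finset.mem_univ, true_and,
        Finset.subset_univ]
      constructor
      · intro h; exact ⟨by omega, h⟩
      · intro h; exact h.2
    rw [h3]
    refine Finset.sum_le_sum fun y _ => ?_
    have h4 : ((Finset.univ : Finset (Finset (Fin n))).filter
        fun S => S.card ≤ 2 * s ∧ der f y S ≠ 0) =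
        ((Finset.univ : Finset (Finset (Fin n))).filter fun S => S.card ≤ 2 * s).filter
          fun S => der f y S ≠ 0 := by
      rw [Finset.filter_filter]
    rw [h4, Finset.card_eq_sum_ones, Finset.sum_filter]
    push_cast
    refine Finset.sum_le_sum fun S _ => ?_
    split_ifs with h
    · have h5 : (1 : ℤ) ≤ (der f y S) ^ 2 := by
        have := sq_pos_of_ne_zero h
        omega
      exact_mod_cast h5
    · exact sq_nonneg _
  have h5 : (K : ℝ) * 2 ^ n < ∑ y : Finset (Fin n), (((Finset.univ : Finset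
      (Finset (Fin n))).filter fun S => S.card ≤ 2 * s ∧ der f y S ≠ 0).card : ℝ) := by
    have h6 : ∑ _y : Finset (Fin n), (K : ℝ) < ∑ y : Finset (Fin n), (((Finset.univ : Finset
        (Finset (Fin n))).filter fun S => S.card ≤ 2 * s ∧ der f y S ≠ 0).card : ℝ) := by
      refine Finset.sum_lt_sum_of_nonempty Finset.univ_nonempty fun y _ => ?_
      exact_mod_cast hcon y
    refine lt_of_eq_of_lt ?_ h6
    rw [Finset.sum_const, Finset.card_univ, Fintype.card_finset, Fintype.card_fin, nsmul_eq_mul]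
    push_cast; ring
  linarith

end Pool.Agent.Helper903_S
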