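import Pool.Agent.Helper903_S.B

/-!
# Functions of low sensitivity: the counting
-/

open scoped symmDiff

namespace Pool.Agent.Helper903_S

variable {n : ℕ}

theorem ind_inj (f g : Finset (Fin n) → Bool) (x : Finset (Fin n)) (h : ind f x = ind g x) :
    f x = g x := by
  unfold ind at h
  cases hf : f x <;> cases hg : g x <;> simp_all

/-- A function of sensitivity at most `s` is determined by its derivatives of order at most `2 s`
at any point. -/
theorem determined (f g : Finset (Fin n) → Bool) (s : ℕ) (hf : ∀ x, sens f x ≤ s)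
    (hg : ∀ x, sens g x ≤ s) (y : Finset (Fin n))
    (h : ∀ S : Finset (Fin n), S.card ≤ 2 * s → der f y S = der g y S) : f = g := by
  classical
  have key : ∀ m : ℕ, ∀ T : Finset (Fin n), T.card = m → f (y ∆ T) = g (y ∆ T) := by
    intro m
    induction m using Nat.strong_induction_on with
    | _ m ih =>
      intro T hT
      by_cases hm : T.card ≤ 2 * s
      · have h1 := h T hm
        unfold der at h1
        rw [← Finset.add_sum_erase _ _ (Finset.mem_powerset_self T),
          ← Finset.add_sum_erase _ _ (Finset.mem_powerset_self T)] at h1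
        have h2 : ∑ T' ∈ T.powerset.erase T, (-1) ^ T'.card * ind f (y ∆ T') =
            ∑ T' ∈ T.powerset.erase T, (-1) ^ T'.card * ind g (y ∆ T') := by
          refine Finset.sum_congr rfl fun T' hT' => ?_
          rw [Finset.mem_erase, Finset.mem_powerset] at hT'
          have hlt : T'.card < m := by
            rw [← hT]
            exact Finset.card_lt_card (Finset.ssubset_iff_subset_ne.2 ⟨hT'.2, hT'.1⟩)
          have h3 := ih T'.card hlt T' rfl
          unfold ind
          rw [h3]
        rw [h2] at h1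
        have h4 : (-1 : ℤ) ^ T.card * ind f (y ∆ T) = (-1) ^ T.card * ind g (y ∆ T) := by
          linarith
        have h5 : ((-1 : ℤ) ^ T.card) ≠ 0 := by
          apply pow_ne_zero; norm_num
        exact ind_inj f g _ (mul_left_cancel₀ h5 h4)
      · by_contra hne
        have hsub : T ⊆ (Finset.univ.filter fun i : Fin n => f (y ∆ T ∆ {i}) ≠ f (y ∆ T)) ∪
            (Finset.univ.filter fun i : Fin n => g (y ∆ T ∆ {i}) ≠ g (y ∆ T)) := by
          intro i hi
          have e1 : y ∆ T ∆ {i} = y ∆ (T.erase i) := by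
            rw [symmDiff_assoc]
            congr 1
            ext k
            by_cases hk : k = i
            · subst hk; simp [Finset.mem_symmDiff, hi]
            · simp [Finset.mem_symmDiff, hk]
          have h6 : f (y ∆ T ∆ {i}) = g (y ∆ T ∆ {i}) := by
            rw [e1]
            refine ih (T.erase i).card ?_ _ rfl
            rw [Finset.card_erase_of_mem hi, hT]
            have := Finset.card_pos.2 ⟨i, hi⟩
            omega
          rw [Finset.mem_union, Finset.mem_filter, Finset.mem_filter]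
          by_cases h7 : f (y ∆ T ∆ {i}) = f (y ∆ T)
          · right
            refine ⟨Finset.mem_univ _, fun h8 => hne ?_⟩
            rw [← h7, h6, h8]
          · left
            exact ⟨Finset.mem_univ _, h7⟩
        have h9 := le_trans (Finset.card_le_card hsub) (Finset.card_union_le _ _)
        have h10 := hf (y ∆ T)
        have h11 := hg (y ∆ T)
        unfold sens at h10 h11
        omega
  funext x
  have h12 := key (y ∆ x).card (y ∆ x) rfl
  rwa [symmDiff_symmDiff_cancel_left] at h12

/-- The number of subsets with at most `K` elements. -/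
theorem card_small {α : Type*} [DecidableEq α] (X : Finset α) (K : ℕ) :
    (X.powerset.filter fun Z => Z.card ≤ K).card ≤ (X.card + 1) ^ K := by
  classical
  induction K with
  | zero =>
    have : (X.powerset.filter fun Z => Z.card ≤ 0) ⊆ {∅} := by
      intro Z hZ
      rw [Finset.mem_filter] at hZ
      rw [Finset.mem_singleton]
      exact Finset.card_eq_zero.1 (by omega)
    simpa using Finset.card_le_card this
  | succ K ih =>
    have hsub : (X.powerset.filter fun Z => Z.card ≤ K + 1) ⊆
        (((X.powerset.filter fun Z => Z.card ≤ K) ×ˢ (Finset.insertNone X)).image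
          fun p => match p.2 with
            | none => p.1
            | some a => insert a p.1) := by
      intro Z hZ
      rw [Finset.mem_filter, Finset.mem_powerset] at hZ
      rw [Finset.mem_image]
      rcases Z.eq_empty_or_nonempty with h0 | ⟨a, ha⟩
      · refine ⟨(∅, none), ?_, by simp [h0]⟩
        simp
      · refine ⟨(Z.erase a, some a), ?_, ?_⟩
        · rw [Finset.mem_product, Finset.mem_filter, Finset.mem_powerset]
          refine ⟨⟨fun b hb => hZ.1 (Finset.mem_of_mem_erase hb), ?_⟩, ?_⟩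
          · rw [Finset.card_erase_of_mem ha]; omega
          · simp [hZ.1 ha]
        · simp [Finset.insert_erase ha]
    refine le_trans (Finset.card_le_card hsub) (le_trans Finset.card_image_le ?_)
    rw [Finset.card_product, Finset.card_insertNone, pow_succ]
    exact Nat.mul_le_mul_right _ ih

theorem abs_der_le (f : Finset (Fin n) → Bool) (y S : Finset (Fin n)) :
    |der f y S| ≤ 2 ^ S.card := by
  unfold der
  refine le_trans (Finset.abs_sum_le_sum_abs _ _) ?_
  refine le_trans (Finset.sum_le_sum (g := fun _ => (1 : ℤ)) fun T _ => ?_) ?_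
  · rw [abs_mul, abs_pow, abs_neg, abs_one, one_pow, one_mul]
    unfold ind
    split_ifs <;> norm_num
  · simp

/-- The bound on the number of functions of sensitivity at most `s`. -/
theorem card_le (n s : ℕ) :
    Nat.card {f : Finset (Fin n) → Bool // ∀ x, sens f x ≤ s} ≤
      2 ^ n * ((n + 1) ^ (2 * s) * (2 * 4 ^ s + 1) + 1) ^
        (∑ r ∈ Finset.range (2 * s + 1), 4 ^ r * (s ^ 2).choose r) := by
  classical
  set K : ℕ := ∑ r ∈ Finset.range (2 * s + 1), 4 ^ r * (s ^ 2).choose r with hK
  set small : Finset (Finset (Fin n)) :=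
    (Finset.univ : Finset (Fin n)).powerset.filter fun S => S.card ≤ 2 * s with hsmall
  set pairs : Finset (Finset (Fin n) × ℤ) := small ×ˢ Finset.Icc (-(4 ^ s : ℤ)) (4 ^ s)
    with hpairs
  have hcp : pairs.card ≤ (n + 1) ^ (2 * s) * (2 * 4 ^ s + 1) := by
    rw [hpairs, Finset.card_product, Int.card_Icc]
    have h1 : small.card ≤ (n + 1) ^ (2 * s) := by
      have := card_small (Finset.univ : Finset (Fin n)) (2 * s)
      rw [Finset.card_univ, Fintype.card_fin] at this
      exact this
    have h2 : ((4 ^ s + 1 - -(4 ^ s : ℤ)).toNat) = 2 * 4 ^ s + 1 := by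
      have : (4 ^ s + 1 - -(4 ^ s : ℤ)) = ((2 * 4 ^ s + 1 : ℕ) : ℤ) := by push_cast; ring
      rw [this, Int.toNat_natCast]
    rw [h2]
    exact Nat.mul_le_mul_right _ h1
  choose! yy hyy using fun (f : Finset (Fin n) → Bool) (hf : ∀ x, sens f x ≤ s) =>
    exists_point f s hf
  let Z : (Finset (Fin n) → Bool) → Finset (Finset (Fin n) × ℤ) := fun f =>
    ((Finset.univ : Finset (Finset (Fin n))).filter
      fun S => S.card ≤ 2 * s ∧ der f (yy f) S ≠ 0).image fun S => (S, der f (yy f) S)
  let target : Finset (Finset (Fin n) × Finset (Finset (Fin n) × ℤ)) :=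
    (Finset.univ : Finset (Finset (Fin n))) ×ˢ (pairs.powerset.filter fun Z => Z.card ≤ K)
  have hmem : ∀ f : {f : Finset (Fin n) → Bool // ∀ x, sens f x ≤ s},
      (yy f.1, Z f.1) ∈ target := by
    intro f
    refine Finset.mem_product.2 ⟨Finset.mem_univ _, ?_⟩
    rw [Finset.mem_filter, Finset.mem_powerset]
    refine ⟨?_, le_trans Finset.card_image_le (hyy f.1 f.2)⟩
    intro p hp
    obtain ⟨S, hS, rfl⟩ := Finset.mem_image.1 hp
    rw [Finset.mem_filter] at hS
    rw [hpairs, Finset.mem_product, hsmall, Finset.mem_filter, Finset.mem_powerset,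
      Finset.mem_Icc]
    have h3 := abs_le.1 (abs_der_le f.1 (yy f.1) S)
    have h4 : (2 : ℤ) ^ S.card ≤ 4 ^ s := by
      have : (4 : ℤ) ^ s = 2 ^ (2 * s) := by rw [pow_mul]; norm_num
      rw [this]
      exact pow_le_pow_right₀ (by norm_num) hS.2.1
    exact ⟨⟨Finset.subset_univ _, hS.2.1⟩, by linarith [h3.1], by linarith [h3.2]⟩
  have hinj : Function.Injective fun f : {f : Finset (Fin n) → Bool // ∀ x, sens f x ≤ s} =>
      (⟨(yy f.1, Z f.1), hmem f⟩ : target) := by
    intro f g hfg
    have h5 : (yy f.1, Z f.1) = (yy g.1, Z g.1) := congrArg Subtype.val hfg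
    have hy : yy f.1 = yy g.1 := congrArg Prod.fst h5
    have hZ : Z f.1 = Z g.1 := congrArg Prod.snd h5
    apply Subtype.ext
    refine determined f.1 g.1 s f.2 g.2 (yy f.1) fun S hS => ?_
    by_cases h6 : der f.1 (yy f.1) S = 0
    · by_contra h7
      have h8 : der g.1 (yy g.1) S ≠ 0 := by
        rw [← hy]; intro h9; exact h7 (by rw [h6, h9])
      have h10 : (S, der g.1 (yy g.1) S) ∈ Z g.1 :=
        Finset.mem_image.2 ⟨S, Finset.mem_filter.2 ⟨Finset.mem_univ _, hS, h8⟩, rfl⟩
      rw [← hZ] at h10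
      obtain ⟨S', hS', he⟩ := Finset.mem_image.1 h10
      have e1 : S' = S := congrArg Prod.fst he
      subst e1
      exact (Finset.mem_filter.1 hS').2.2 h6
    · have h10 : (S, der f.1 (yy f.1) S) ∈ Z f.1 :=
        Finset.mem_image.2 ⟨S, Finset.mem_filter.2 ⟨Finset.mem_univ _, hS, h6⟩, rfl⟩
      rw [hZ] at h10
      obtain ⟨S', hS', he⟩ := Finset.mem_image.1 h10
      have e1 : S' = S := congrArg Prod.fst he
      have e2 : der g.1 (yy g.1) S' = der f.1 (yy f.1) S := congrArg Prod.snd he
      rw [← e2, e1, hy]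
  have h11 := Nat.card_le_card_of_injective _ hinj
  refine le_trans h11 ?_
  rw [Nat.card_eq_fintype_card, Fintype.card_coe]
  show ((Finset.univ : Finset (Finset (Fin n))) ×ˢ
    (pairs.powerset.filter fun Z => Z.card ≤ K)).card ≤ _
  rw [Finset.card_product, Finset.card_univ, Fintype.card_finset, Fintype.card_fin]
  refine Nat.mul_le_mul_left _ (le_trans (card_small pairs K) ?_)
  exact Nat.pow_le_pow_left (by omega) K

/-- A bound for the exponent. -/
theorem K_le (s : ℕ) (hs : 1 ≤ s) :
    ((∑ r ∈ Finset.range (2 * s + 1), 4 ^ r * (s ^ 2).choose r : ℕ) : ℝ) ≤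
      (12 * (s : ℝ)) ^ (2 * s) := by
  have hs1 : (1 : ℝ) ≤ s := by exact_mod_cast hs
  have hterm : ∀ r ∈ Finset.range (2 * s + 1),
      ((4 : ℝ) ^ r * ((s ^ 2).choose r : ℕ)) ≤ 4 ^ (2 * s) * (s : ℝ) ^ (2 * s) * 3 ^ s := by
    intro r hr
    rw [Finset.mem_range] at hr
    have h1 : (((s ^ 2).choose r : ℕ) : ℝ) ≤ ((s ^ 2 : ℕ) : ℝ) ^ r / (r.factorial : ℝ) :=
      Nat.choose_le_pow_div r (s ^ 2)
    have h2 : (s : ℝ) ^ r / (r.factorial : ℝ) ≤ Real.exp s :=
      Real.pow_div_factorial_le_exp (s : ℝ) (by positivity) r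
    have h3 : Real.exp s ≤ 3 ^ s := by
      have : Real.exp (s : ℝ) = Real.exp 1 ^ s := by rw [← Real.exp_nat_mul, mul_one]
      rw [this]
      exact pow_le_pow_left₀ (Real.exp_pos _).le (by linarith [Real.exp_one_lt_d9]) s
    have h4 : ((s ^ 2 : ℕ) : ℝ) ^ r / (r.factorial : ℝ) =
        (s : ℝ) ^ r * ((s : ℝ) ^ r / (r.factorial : ℝ)) := by
      push_cast; rw [← pow_mul, mul_comm 2 r, pow_mul, pow_two, mul_div_assoc]
    calc (4 : ℝ) ^ r * ((s ^ 2).choose r : ℕ)
        ≤ 4 ^ r * ((s : ℝ) ^ r * 3 ^ s) := by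
          rw [h4] at h1
          have h5 : (s : ℝ) ^ r * ((s : ℝ) ^ r / (r.factorial : ℝ)) ≤ (s : ℝ) ^ r * 3 ^ s :=
            mul_le_mul_of_nonneg_left (le_trans h2 h3) (by positivity)
          exact mul_le_mul_of_nonneg_left (le_trans h1 h5) (by positivity)
      _ ≤ 4 ^ (2 * s) * ((s : ℝ) ^ (2 * s) * 3 ^ s) := by
          have h6 : (4 : ℝ) ^ r ≤ 4 ^ (2 * s) := pow_le_pow_right₀ (by norm_num) (by omega)
          have h7 : (s : ℝ) ^ r ≤ (s : ℝ) ^ (2 * s) := pow_le_pow_right₀ hs1 (by omega)
          gcongr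
      _ = 4 ^ (2 * s) * (s : ℝ) ^ (2 * s) * 3 ^ s := by ring
  push_cast
  refine le_trans (Finset.sum_le_sum hterm) ?_
  rw [Finset.sum_const, Finset.card_range, nsmul_eq_mul]
  have h8 : ((2 * s + 1 : ℕ) : ℝ) ≤ 3 ^ s := by
    have h9 : ((2 * s + 1 : ℕ) : ℤ) ≤ ((3 ^ s : ℕ) : ℤ) := by
      have h10 := one_add_mul_le_pow (R := ℤ) (a := 2) (by norm_num) s
      have e3 : (1 + 2 : ℤ) = 3 := by norm_num
      rw [e3] at h10
      push_cast
      linarith
    have : (2 * s + 1 : ℕ) ≤ 3 ^ s := by exact_mod_cast h9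
    exact_mod_cast this
  have h11 : (0 : ℝ) ≤ 4 ^ (2 * s) * (s : ℝ) ^ (2 * s) * 3 ^ s := by positivity
  refine le_trans (mul_le_mul_of_nonneg_right h8 h11) (le_of_eq ?_)
  rw [mul_pow]
  have h12 : (12 : ℝ) ^ (2 * s) = 144 ^ s := by rw [pow_mul]; norm_num
  have h13 : (4 : ℝ) ^ (2 * s) = 16 ^ s := by rw [pow_mul]; norm_num
  have h14 : (144 : ℝ) ^ s = 3 ^ s * (16 ^ s * 3 ^ s) := by
    rw [← mul_pow, ← mul_pow]; norm_num
  rw [h12, h13, h14]; ring

end Pool.Agent.Helper903_S
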