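import Pool.Agent.Helper903_S.C

/-!
# Functions of low sensitivity that are simple on small-codimension subcubes
-/

open scoped symmDiff

namespace Pool.Agent.Helper903_S

/-- A nonempty set of vertices of the cube in which every vertex has at most `k` neighbours outside
has at least `2 ^ (n - k)` elements. -/
theorem min_degree {α : Type*} [DecidableEq α] (V : Finset α) :
    ∀ (k : ℕ) (D : Finset (Finset α)), D.Nonempty →
      (∀ x ∈ D, (V.filter fun i => x ∆ {i} ∉ D).card ≤ k) → 2 ^ V.card ≤ 2 ^ k * D.card := by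
  induction V using Finset.induction_on with
  | empty =>
    intro k D hD _
    have h1 : 1 ≤ D.card := Finset.card_pos.2 hD
    have h2 : 1 ≤ 2 ^ k := Nat.one_le_two_pow
    simpa using Nat.mul_le_mul h2 h1
  | insert a V ha ih =>
    intro k D hD hk
    rw [Finset.card_insert_of_notMem ha, pow_succ]
    have key : ∀ (j : ℕ) (P : Finset α → Prop) [DecidablePred P],
        (∀ x i, i ∈ V → (P (x ∆ {i}) ↔ P x)) → (D.filter P).Nonempty →
        (∀ x ∈ D.filter P, (V.filter fun i => x ∆ {i} ∉ D).card ≤ j) →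
        2 ^ V.card ≤ 2 ^ j * (D.filter P).card := by
      intro j P _ hP hne hj
      refine ih j (D.filter P) hne fun x hx => ?_
      refine le_trans (Finset.card_le_card ?_) (hj x hx)
      intro i hi
      rw [Finset.mem_filter] at hi ⊢
      refine ⟨hi.1, fun h => hi.2 ?_⟩
      rw [Finset.mem_filter] at hx ⊢
      exact ⟨h, (hP x i hi.1).2 hx.2⟩
    have hmem : ∀ (x : Finset α) (i : α), i ∈ V → (a ∈ x ∆ {i} ↔ a ∈ x) := by
      intro x i hi
      have : a ≠ i := fun h => ha (h ▸ hi)
      simp [Finset.mem_symmDiff, this]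
    have hsub : ∀ x ∈ D, (V.filter fun i => x ∆ {i} ∉ D).card ≤ k := fun x hx =>
      le_trans (Finset.card_le_card (Finset.filter_subset_filter _ (Finset.subset_insert a V)))
        (hk x hx)
    have hsplit : (D.filter fun x => a ∈ x).card + (D.filter fun x => ¬ a ∈ x).card = D.card :=
      Finset.card_filter_add_card_filter_not _
    rcases (D.filter fun x => a ∈ x).eq_empty_or_nonempty with h1 | h1
    · -- all vertices miss `a`
      have hout : ∀ x ∈ D, x ∆ {a} ∉ D := by
        intro x hx h
        have hx0 : a ∉ x := fun h' => by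
          have : x ∈ D.filter fun x => a ∈ x := Finset.mem_filter.2 ⟨hx, h'⟩
          rw [h1] at this; simp at this
        have : x ∆ {a} ∈ D.filter fun x => a ∈ x :=
          Finset.mem_filter.2 ⟨h, by simp [Finset.mem_symmDiff, hx0]⟩
        rw [h1] at this; simp at this
      obtain ⟨x0, hx0⟩ := hD
      have hcount : ∀ x ∈ D, (V.filter fun i => x ∆ {i} ∉ D).card + 1 ≤ k := by
        intro x hx
        have := hk x hx
        rw [Finset.filter_insert, if_pos (hout x hx), Finset.card_insert_of_notMem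
          (fun h => ha (Finset.mem_filter.1 h).1)] at this
        exact this
      have hk1 : 1 ≤ k := le_trans (by omega) (hcount x0 hx0)
      have h2 := ih (k - 1) D ⟨x0, hx0⟩ fun x hx => by have := hcount x hx; omega
      have h3 : 2 ^ k = 2 ^ (k - 1) * 2 := by rw [← pow_succ]; congr 1; omega
      rw [h3]; nlinarith
    · rcases (D.filter fun x => ¬ a ∈ x).eq_empty_or_nonempty with h0 | h0
      · have hout : ∀ x ∈ D, x ∆ {a} ∉ D := by
          intro x hx h
          have hx0 : a ∈ x := by
            by_contra h'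
            have : x ∈ D.filter fun x => ¬ a ∈ x := Finset.mem_filter.2 ⟨hx, h'⟩
            rw [h0] at this; simp at this
          have : x ∆ {a} ∈ D.filter fun x => ¬ a ∈ x :=
            Finset.mem_filter.2 ⟨h, by simp [Finset.mem_symmDiff, hx0]⟩
          rw [h0] at this; simp at this
        obtain ⟨x0, hx0⟩ := hD
        have hcount : ∀ x ∈ D, (V.filter fun i => x ∆ {i} ∉ D).card + 1 ≤ k := by
          intro x hx
          have := hk x hx
          rw [Finset.filter_insert, if_pos (hout x hx), Finset.card_insert_of_notMem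
            (fun h => ha (Finset.mem_filter.1 h).1)] at this
          exact this
        have hk1 : 1 ≤ k := le_trans (by omega) (hcount x0 hx0)
        have h2 := ih (k - 1) D ⟨x0, hx0⟩ fun x hx => by have := hcount x hx; omega
        have h3 : 2 ^ k = 2 ^ (k - 1) * 2 := by rw [← pow_succ]; congr 1; omega
        rw [h3]; nlinarith
      · have e1 := key k (fun x => a ∈ x) (fun x i hi => hmem x i hi) h1
          fun x hx => hsub x (Finset.mem_filter.1 hx).1
        have e0 := key k (fun x => ¬ a ∈ x) (fun x i hi => not_congr (hmem x i hi)) h0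
          fun x hx => hsub x (Finset.mem_filter.1 hx).1
        rw [← hsplit, mul_add]; omega

variable {n : ℕ}

/-- the subcube given by a set of literals -/
def cell (C : Finset (Fin n × Bool)) : Finset (Finset (Fin n)) :=
  Finset.univ.filter fun y => ∀ p ∈ C, (p.1 ∈ y ↔ p.2 = true)

theorem mem_cell (C : Finset (Fin n × Bool)) (y : Finset (Fin n)) :
    y ∈ cell C ↔ ∀ p ∈ C, (p.1 ∈ y ↔ p.2 = true) := by
  unfold cell; simp

/-- the number of neighbours of `x` outside `T` -/
def bd (T : Finset (Finset (Fin n))) (x : Finset (Fin n)) : ℕ :=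
  (Finset.univ.filter fun i : Fin n => x ∆ {i} ∉ T).card

/-- the tests: a subcube of codimension at most `k` and a function of the list -/
def tests (n k : ℕ) (S : Finset (Finset (Fin n) → Bool)) :
    Finset (Finset (Fin n × Bool) × (Finset (Fin n) → Bool)) :=
  ((Finset.univ : Finset (Fin n × Bool)).powerset.filter fun C => C.card ≤ k) ×ˢ S

theorem card_tests (k : ℕ) (S : Finset (Finset (Fin n) → Bool)) :
    (tests n k S).card ≤ (2 * n + 1) ^ k * S.card := by
  unfold tests
  rw [Finset.card_product]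
  refine Nat.mul_le_mul_right _ ?_
  have := card_small (Finset.univ : Finset (Fin n × Bool)) k
  rw [Finset.card_univ, Fintype.card_prod, Fintype.card_fin, Fintype.card_bool, mul_comm n 2] at this
  exact this

/-- the tests passed by `f` -/
def passed (k : ℕ) (S : Finset (Finset (Fin n) → Bool)) (f : Finset (Fin n) → Bool) :
    Finset (Finset (Fin n × Bool) × (Finset (Fin n) → Bool)) :=
  (tests n k S).filter fun Z => ∀ y ∈ cell Z.1, f y = Z.2 y

/-- A small set of tests rules out the same sets of small boundary as all the tests passed. -/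
theorem exists_tests (s k : ℕ) (S : Finset (Finset (Fin n) → Bool)) (f : Finset (Fin n) → Bool) :
    ∃ G ⊆ passed k S f, G.card ≤ 2 ^ (2 * s + k) ∧
      ∀ T : Finset (Finset (Fin n)), (∀ x ∈ T, bd T x ≤ 2 * s) →
        (∀ Z ∈ G, ∀ x ∈ cell Z.1, x ∉ T) → ∀ Z ∈ passed k S f, ∀ x ∈ cell Z.1, x ∉ T := by
  classical
  set good : Finset (Finset (Finset (Fin n × Bool) × (Finset (Fin n) → Bool))) :=
    (passed k S f).powerset.filter fun G =>
      ∀ T : Finset (Finset (Fin n)), (∀ x ∈ T, bd T x ≤ 2 * s) →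
        (∀ Z ∈ G, ∀ x ∈ cell Z.1, x ∉ T) → ∀ Z ∈ passed k S f, ∀ x ∈ cell Z.1, x ∉ T with hgood
  have hne : good.Nonempty := by
    refine ⟨passed k S f, ?_⟩
    rw [hgood, Finset.mem_filter]
    exact ⟨Finset.mem_powerset_self _, fun T _ h => h⟩
  obtain ⟨G, hG, hmin⟩ := Finset.exists_min_image good Finset.card hne
  have hG' := hG
  rw [hgood, Finset.mem_filter, Finset.mem_powerset] at hG'
  refine ⟨G, hG'.1, ?_, hG'.2⟩
  -- the alternatives
  have halt : ∀ Z ∈ G, ∃ T : Finset (Finset (Fin n)), (∀ x ∈ T, bd T x ≤ 2 * s) ∧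
      (∀ Z' ∈ G, Z' ≠ Z → ∀ x ∈ cell Z'.1, x ∉ T) ∧ ∃ x ∈ cell Z.1, x ∈ T := by
    intro Z hZ
    have hnot : G.erase Z ∉ good := by
      intro h
      have h1 := hmin _ h
      rw [Finset.card_erase_of_mem hZ] at h1
      have h2 := Finset.card_pos.2 ⟨Z, hZ⟩
      omega
    rw [hgood, Finset.mem_filter, Finset.mem_powerset] at hnot
    have hsub : G.erase Z ⊆ passed k S f := (Finset.erase_subset _ _).trans hG'.1
    have h3 : ¬ ∀ T : Finset (Finset (Fin n)), (∀ x ∈ T, bd T x ≤ 2 * s) →
        (∀ Z' ∈ G.erase Z, ∀ x ∈ cell Z'.1, x ∉ T) → ∀ Z' ∈ passed k S f, ∀ x ∈ cell Z'.1, x ∉ T :=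
      fun h => hnot ⟨hsub, h⟩
    push Not at h3
    obtain ⟨T, hT, hdis, Z'', hZ'', x, hx, hxT⟩ := h3
    refine ⟨T, hT, fun Z' hZ' hne' => hdis Z' (Finset.mem_erase.2 ⟨hne', hZ'⟩), ?_⟩
    by_contra hcon
    push Not at hcon
    refine hG'.2 T hT (fun Z' hZ' => ?_) Z'' hZ'' x hx hxT
    by_cases h4 : Z' = Z
    · rw [h4]; exact hcon
    · exact hdis Z' (Finset.mem_erase.2 ⟨h4, hZ'⟩)
  choose! T hTb hTd hTm using halt
  have hbig : ∀ Z ∈ G, 2 ^ n ≤ 2 ^ (2 * s + k) * (T Z ∩ cell Z.1).card := by
    intro Z hZ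
    have hkZ : Z.1.card ≤ k := by
      have h5 := hG'.1 hZ
      unfold passed tests at h5
      rw [Finset.mem_filter, Finset.mem_product, Finset.mem_filter] at h5
      exact h5.1.1.2
    obtain ⟨x0, hx0, hx0T⟩ := hTm Z hZ
    have h6 := min_degree (Finset.univ : Finset (Fin n)) (2 * s + k) (T Z ∩ cell Z.1)
      ⟨x0, Finset.mem_inter.2 ⟨hx0T, hx0⟩⟩ (by
        intro x hx
        rw [Finset.mem_inter] at hx
        have h7 : (Finset.univ.filter fun i : Fin n => x ∆ {i} ∉ T Z ∩ cell Z.1) ⊆
            (Finset.univ.filter fun i : Fin n => x ∆ {i} ∉ T Z) ∪ Z.1.image Prod.fst := by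
          intro i hi
          rw [Finset.mem_filter, Finset.mem_inter, not_and_or] at hi
          rw [Finset.mem_union, Finset.mem_filter]
          rcases hi.2 with h | h
          · exact Or.inl ⟨Finset.mem_univ _, h⟩
          · right
            by_contra h8
            apply h
            rw [mem_cell]
            intro p hp
            have h9 := (mem_cell _ _).1 hx.2 p hp
            have h10 : p.1 ≠ i := fun h11 => h8 (Finset.mem_image.2 ⟨p, hp, h11⟩)
            rw [← h9]
            simp [Finset.mem_symmDiff, h10]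
        refine le_trans (Finset.card_le_card h7) (le_trans (Finset.card_union_le _ _) ?_)
        exact Nat.add_le_add (hTb Z hZ x hx.1) (le_trans Finset.card_image_le hkZ))
    rwa [Finset.card_univ, Fintype.card_fin] at h6
  have hdisj : ∀ Z ∈ G, ∀ Z' ∈ G, Z ≠ Z' → Disjoint (T Z ∩ cell Z.1) (T Z' ∩ cell Z'.1) := by
    intro Z hZ Z' hZ' hne'
    rw [Finset.disjoint_left]
    intro x hx hx'
    rw [Finset.mem_inter] at hx hx'
    exact hTd Z hZ Z' hZ' (Ne.symm hne') x hx'.2 hx.1
  have hsum : ∑ Z ∈ G, (T Z ∩ cell Z.1).card ≤ 2 ^ n := by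
    rw [← Finset.card_biUnion hdisj]
    refine le_trans (Finset.card_le_univ _) ?_
    rw [Fintype.card_finset, Fintype.card_fin]
  have h12 : G.card * 2 ^ n ≤ 2 ^ (2 * s + k) * 2 ^ n := by
    calc G.card * 2 ^ n = ∑ _Z ∈ G, 2 ^ n := by rw [Finset.sum_const, smul_eq_mul]
      _ ≤ ∑ Z ∈ G, 2 ^ (2 * s + k) * (T Z ∩ cell Z.1).card := Finset.sum_le_sum hbig
      _ = 2 ^ (2 * s + k) * ∑ Z ∈ G, (T Z ∩ cell Z.1).card := by rw [Finset.mul_sum]
      _ ≤ 2 ^ (2 * s + k) * 2 ^ n := Nat.mul_le_mul_left _ hsum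
  exact Nat.le_of_mul_le_mul_right h12 (by positivity)

/-- **The covering lemma.** The number of functions of sensitivity at most `s` all of whose
`true` inputs lie in a subcube of codimension at most `k` on which the function agrees with a
member of the list `S`. -/
theorem cover_card_le (s k : ℕ) (S : Finset (Finset (Fin n) → Bool)) :
    Nat.card {f : Finset (Fin n) → Bool // (∀ x, sens f x ≤ s) ∧
      ∀ x, f x = true → ∃ Z ∈ tests n k S, x ∈ cell Z.1 ∧ ∀ y ∈ cell Z.1, f y = Z.2 y} ≤
      ((2 * n + 1) ^ k * S.card + 1) ^ 2 ^ (2 * s + k) := by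
  classical
  choose G hGs hGc hGd using fun f : Finset (Fin n) → Bool => exists_tests s k S f
  have hmem : ∀ f : Finset (Fin n) → Bool,
      G f ∈ (tests n k S).powerset.filter fun Z => Z.card ≤ 2 ^ (2 * s + k) := by
    intro f
    rw [Finset.mem_filter, Finset.mem_powerset]
    exact ⟨(hGs f).trans (Finset.filter_subset _ _), hGc f⟩
  have hinj : Function.Injective fun f : {f : Finset (Fin n) → Bool // (∀ x, sens f x ≤ s) ∧
      ∀ x, f x = true → ∃ Z ∈ tests n k S, x ∈ cell Z.1 ∧ ∀ y ∈ cell Z.1, f y = Z.2 y} =>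
      (⟨G f.1, hmem f.1⟩ : {Z // Z ∈ (tests n k S).powerset.filter
        fun Z => Z.card ≤ 2 ^ (2 * s + k)}) := by
    rintro ⟨f, hf, hfc⟩ ⟨g, hg, hgc⟩ hfg
    have hfg' : G f = G g := congrArg Subtype.val hfg
    apply Subtype.ext
    show f = g
    set T : Finset (Finset (Fin n)) := Finset.univ.filter fun x => f x ≠ g x with hT
    have hTb : ∀ x ∈ T, bd T x ≤ 2 * s := by
      intro x hx
      rw [hT, Finset.mem_filter] at hx
      unfold bd
      have h1 : (Finset.univ.filter fun i : Fin n => x ∆ {i} ∉ T) ⊆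
          (Finset.univ.filter fun i : Fin n => f (x ∆ {i}) ≠ f x) ∪
            (Finset.univ.filter fun i : Fin n => g (x ∆ {i}) ≠ g x) := by
        intro i hi
        rw [Finset.mem_filter, hT, Finset.mem_filter] at hi
        have h2 : f (x ∆ {i}) = g (x ∆ {i}) := by
          by_contra h; exact hi.2 ⟨Finset.mem_univ _, h⟩
        rw [Finset.mem_union, Finset.mem_filter, Finset.mem_filter]
        by_cases h3 : f (x ∆ {i}) = f x
        · right
          refine ⟨Finset.mem_univ _, fun h4 => hx.2 ?_⟩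
          rw [← h3, h2, h4]
        · exact Or.inl ⟨Finset.mem_univ _, h3⟩
      refine le_trans (Finset.card_le_card h1) (le_trans (Finset.card_union_le _ _) ?_)
      have h4 := hf x
      have h5 := hg x
      unfold sens at h4 h5
      omega
    have hTd : ∀ Z ∈ G f, ∀ x ∈ cell Z.1, x ∉ T := by
      intro Z hZ x hx hxT
      rw [hT, Finset.mem_filter] at hxT
      have h6 := (Finset.mem_filter.1 (hGs f hZ)).2 x hx
      rw [hfg'] at hZ
      have h7 := (Finset.mem_filter.1 (hGs g hZ)).2 x hx
      exact hxT.2 (by rw [h6, h7])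
    have h8 := hGd f T hTb hTd
    have h9 := hGd g T hTb (by rw [← hfg']; exact hTd)
    funext x
    by_contra hne
    have hxT : x ∈ T := by rw [hT, Finset.mem_filter]; exact ⟨Finset.mem_univ _, hne⟩
    by_cases hfx : f x = true
    · obtain ⟨Z, hZ, hxZ, hZf⟩ := hfc x hfx
      exact h8 Z (Finset.mem_filter.2 ⟨hZ, hZf⟩) x hxZ hxT
    · have hgx : g x = true := by
        cases hg' : g x
        · exfalso; apply hne; rw [hg']; simpa using hfx
        · rfl
      obtain ⟨Z, hZ, hxZ, hZg⟩ := hgc x hgx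
      exact h9 Z (Finset.mem_filter.2 ⟨hZ, hZg⟩) x hxZ hxT
  have h10 := Nat.card_le_card_of_injective _ hinj
  refine le_trans h10 ?_
  rw [Nat.card_eq_fintype_card, Fintype.card_coe]
  refine le_trans (card_small _ _) (Nat.pow_le_pow_left ?_ _)
  have := card_tests k S
  omega

end Pool.Agent.Helper903_S
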