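import Pool.Agent.Helper903_S.D

/-!
# The number of Boolean functions of bounded degree
-/

open scoped symmDiff

namespace Pool.Agent.Helper903_S

variable {n : ℕ}

/-- `f` is a real multilinear polynomial of degree at most `d` in the coordinates. -/
def HasDegree (f : Finset (Fin n) → Bool) (d : ℕ) : Prop :=
  ∃ c : Finset (Fin n) → ℝ, (∀ S, d < S.card → c S = 0) ∧
    ∀ x : Finset (Fin n), (if f x = true then (1 : ℝ) else 0) = ∑ S ∈ x.powerset, c S

theorem ind_eq (f : Finset (Fin n) → Bool) (x : Finset (Fin n)) :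
    (ind f x : ℝ) = if f x = true then (1 : ℝ) else 0 := by
  unfold ind; split_ifs <;> simp

theorem ind_eq_sum (f : Finset (Fin n) → Bool) (c : Finset (Fin n) → ℝ)
    (hc : ∀ x : Finset (Fin n), (if f x = true then (1 : ℝ) else 0) = ∑ S ∈ x.powerset, c S)
    (x : Finset (Fin n)) : (ind f x : ℝ) = ∑ S, c S * (if S ⊆ x then 1 else 0) := by
  rw [ind_eq, hc x]
  have : x.powerset = Finset.univ.filter fun S => S ⊆ x := by ext S; simp
  rw [this, Finset.sum_filter]
  exact Finset.sum_congr rfl fun S _ => by split_ifs <;> simp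

theorem sub_flip (W y : Finset (Fin n)) (i : Fin n) (hi : i ∉ W) : W ⊆ y ∆ {i} ↔ W ⊆ y := by
  constructor
  · intro h j hj
    have hne : j ≠ i := fun e => hi (e ▸ hj)
    have := h hj
    simpa [Finset.mem_symmDiff, hne] using this
  · intro h j hj
    have hne : j ≠ i := fun e => hi (e ▸ hj)
    simp [Finset.mem_symmDiff, hne, h hj]

/-- Fourier coefficients above the degree vanish. -/
theorem hat_zero (f : Finset (Fin n) → Bool) (d : ℕ) (hf : HasDegree f d) (U : Finset (Fin n))
    (hU : hat (fun x => (ind f x : ℝ)) U ≠ 0) : U.card ≤ d := by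
  classical
  obtain ⟨c, hc0, hc⟩ := hf
  by_contra hcard
  push Not at hcard
  apply hU
  unfold hat
  have h1 : ∀ x ∈ (Finset.univ : Finset (Finset (Fin n))), (ind f x : ℝ) * ch U x =
      ∑ S, c S * ((if S ⊆ x then 1 else 0) * ch U x) := by
    intro x _
    rw [ind_eq_sum f c hc x, Finset.sum_mul]
    exact Finset.sum_congr rfl fun S _ => by ring
  rw [Finset.sum_congr rfl h1, Finset.sum_comm]
  refine Finset.sum_eq_zero fun S _ => ?_
  rw [← Finset.mul_sum]
  by_cases hS : d < S.card
  · rw [hc0 S hS, zero_mul]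
  · have h2 : ¬ U ⊆ S := fun h => by have := Finset.card_le_card h; omega
    obtain ⟨i, hiU, hiS⟩ := Finset.not_subset.1 h2
    have h3 : ∑ x : Finset (Fin n), (if S ⊆ x then (1 : ℝ) else 0) * ch U x =
        - ∑ x : Finset (Fin n), (if S ⊆ x then (1 : ℝ) else 0) * ch U x := by
      rw [← Finset.sum_neg_distrib, ← Equiv.sum_comp (flipE {i})]
      refine Finset.sum_congr rfl fun x _ => ?_
      show (if S ⊆ x ∆ {i} then (1 : ℝ) else 0) * ch U (x ∆ {i}) = _
      rw [ch_flip, if_pos hiU]
      by_cases h4 : S ⊆ x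
      · rw [if_pos h4, if_pos ((sub_flip S x i hiS).2 h4)]; ring
      · rw [if_neg h4, if_neg fun h => h4 ((sub_flip S x i hiS).1 h)]; ring
    have h5 : ∑ x : Finset (Fin n), (if S ⊆ x then (1 : ℝ) else 0) * ch U x = 0 := by linarith
    rw [h5, mul_zero]

/-- Derivatives of order above the degree vanish. -/
theorem der_zero (f : Finset (Fin n) → Bool) (d : ℕ) (hf : HasDegree f d) (y S : Finset (Fin n))
    (hS : d < S.card) : der f y S = 0 := by
  have h1 : ∀ U, hat (fun y => (der f y S : ℝ)) U = 0 := by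
    intro U
    rw [hat_der]
    by_cases h : hat (fun x => (ind f x : ℝ)) U = 0
    · rw [h, mul_zero]
    · have h2 := hat_zero f d hf U h
      rw [if_neg fun h3 => by have := Finset.card_le_card h3; omega, zero_mul]
  have h3 := parseval fun y => (der f y S : ℝ)
  rw [Finset.sum_eq_zero fun U _ => by rw [h1 U]; ring] at h3
  have h4 : ∑ y, (der f y S : ℝ) ^ 2 = 0 := by
    have : (2 : ℝ) ^ n ≠ 0 := by positivity
    rcases mul_eq_zero.1 h3.symm with h | h
    · exact absurd h this
    · exact h
  have h5 := (Finset.sum_eq_zero_iff_of_nonneg fun y _ => sq_nonneg _).1 h4 y (Finset.mem_univ _)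
  have h6 : (der f y S : ℝ) = 0 := by simpa using h5
  exact_mod_cast h6

/-- The derivatives at one point determine the function. -/
theorem determined' (f g : Finset (Fin n) → Bool) (y : Finset (Fin n))
    (h : ∀ S : Finset (Fin n), der f y S = der g y S) : f = g := by
  classical
  have key : ∀ m : ℕ, ∀ T : Finset (Fin n), T.card = m → f (y ∆ T) = g (y ∆ T) := by
    intro m
    induction m using Nat.strong_induction_on with
    | _ m ih =>
      intro T hT
      have h1 := h T
      unfold der at h1
      rw [← Finset.add_sum_erase _ _ (Finset.mem_powerset_self T),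
        ← Finset.add_sum_erase _ _ (Finset.mem_powerset_self T)] at h1
      have h2 : ∑ T' ∈ T.powerset.erase T, (-1) ^ T'.card * ind f (y ∆ T') =
          ∑ T' ∈ T.powerset.erase T, (-1) ^ T'.card * ind g (y ∆ T') := by
        refine Finset.sum_congr rfl fun T' hT' => ?_
        rw [Finset.mem_erase, Finset.mem_powerset] at hT'
        have hlt : T'.card < m := by
          rw [← hT]
          exact Finset.card_lt_card (Finset.ssubset_iff_subset_ne.2 ⟨hT'.2, hT'.1⟩)
        have h3 := ih T'.card hlt T' rfl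
        unfold ind
        rw [h3]
      rw [h2] at h1
      have h4 : (-1 : ℤ) ^ T.card * ind f (y ∆ T) = (-1) ^ T.card * ind g (y ∆ T) := by
        linarith
      have h5 : ((-1 : ℤ) ^ T.card) ≠ 0 := by
        apply pow_ne_zero; norm_num
      exact ind_inj f g _ (mul_left_cancel₀ h5 h4)
  funext x
  have h12 := key (y ∆ x).card (y ∆ x) rfl
  rwa [symmDiff_symmDiff_cancel_left] at h12

/-- At some point at most `5 ^ d` derivatives do not vanish. -/
theorem exists_point' (f : Finset (Fin n) → Bool) (d : ℕ) (hf : HasDegree f d) :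
    ∃ y, ((Finset.univ : Finset (Finset (Fin n))).filter fun S => der f y S ≠ 0).card ≤ 5 ^ d := by
  classical
  by_contra hcon
  push Not at hcon
  have h0 : ∀ y, ((Finset.univ : Finset (Finset (Fin n))).filter fun S => der f y S ≠ 0) ⊆
      (Finset.range (d + 1)).biUnion fun r =>
        ((Finset.univ : Finset (Fin n)).powersetCard r).filter fun S => der f y S ≠ 0 := by
    intro y S hS
    rw [Finset.mem_filter] at hS
    rw [Finset.mem_biUnion]
    refine ⟨S.card, ?_, ?_⟩
    · rw [Finset.mem_range]
      by_contra h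
      exact hS.2 (der_zero f d hf y S (by omega))
    · rw [Finset.mem_filter, Finset.mem_powersetCard]
      exact ⟨⟨Finset.subset_univ _, rfl⟩, hS.2⟩
  have h1 : ∀ y, (((Finset.univ : Finset (Finset (Fin n))).filter fun S => der f y S ≠ 0).card : ℝ)
      ≤ ∑ r ∈ Finset.range (d + 1), ∑ S ∈ (Finset.univ : Finset (Fin n)).powersetCard r,
        (der f y S : ℝ) ^ 2 := by
    intro y
    have h2 := le_trans (Finset.card_le_card (h0 y)) Finset.card_biUnion_le
    have h3 : (((Finset.univ : Finset (Finset (Fin n))).filter fun S => der f y S ≠ 0).card : ℝ) ≤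
        ∑ r ∈ Finset.range (d + 1), ((((Finset.univ : Finset (Fin n)).powersetCard r).filter
          fun S => der f y S ≠ 0).card : ℝ) := by exact_mod_cast h2
    refine le_trans h3 (Finset.sum_le_sum fun r _ => ?_)
    rw [Finset.card_eq_sum_ones, Finset.sum_filter]
    push_cast
    refine Finset.sum_le_sum fun S _ => ?_
    split_ifs with h
    · have h5 : (1 : ℤ) ≤ (der f y S) ^ 2 := by
        have := sq_pos_of_ne_zero h
        omega
      exact_mod_cast h5
    · exact sq_nonneg _
  have h6 : ∑ y : Finset (Fin n), ∑ r ∈ Finset.range (d + 1),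
      ∑ S ∈ (Finset.univ : Finset (Fin n)).powersetCard r, (der f y S : ℝ) ^ 2 ≤
      (5 : ℝ) ^ d * 2 ^ n := by
    rw [Finset.sum_comm]
    have h7 : ∀ r ∈ Finset.range (d + 1), ∑ y : Finset (Fin n),
        ∑ S ∈ (Finset.univ : Finset (Fin n)).powersetCard r, (der f y S : ℝ) ^ 2 ≤
        4 ^ r * d.choose r * 2 ^ n := by
      intro r _
      rw [Finset.sum_comm]
      exact sum_der_sq f d (hat_zero f d hf) r
    refine le_trans (Finset.sum_le_sum h7) ?_
    rw [← Finset.sum_mul]
    have h8 : (5 : ℝ) ^ d = ∑ r ∈ Finset.range (d + 1), (4 : ℝ) ^ r * (d.choose r : ℝ) := by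
      have := add_pow (4 : ℝ) 1 d
      norm_num at this
      rw [this]
    rw [h8]
  have h9 : (5 : ℝ) ^ d * 2 ^ n < ∑ y : Finset (Fin n), (((Finset.univ : Finset
      (Finset (Fin n))).filter fun S => der f y S ≠ 0).card : ℝ) := by
    have h10 : ∑ _y : Finset (Fin n), ((5 ^ d : ℕ) : ℝ) < ∑ y : Finset (Fin n),
        (((Finset.univ : Finset (Finset (Fin n))).filter fun S => der f y S ≠ 0).card : ℝ) := by
      refine Finset.sum_lt_sum_of_nonempty Finset.univ_nonempty fun y _ => ?_
      exact_mod_cast hcon y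
    refine lt_of_eq_of_lt ?_ h10
    rw [Finset.sum_const, Finset.card_univ, Fintype.card_finset, Fintype.card_fin, nsmul_eq_mul]
    push_cast; ring
  have h11 := Finset.sum_le_sum fun (y : Finset (Fin n)) (_ : y ∈ Finset.univ) => h1 y
  linarith

/-- The number of Boolean functions of degree at most `d`. -/
theorem degree_card_le (n d : ℕ) :
    Nat.card {f : Finset (Fin n) → Bool // HasDegree f d} ≤
      2 ^ n * ((n + 1) ^ d * (2 * 2 ^ d + 1) + 1) ^ 5 ^ d := by
  classical
  set K : ℕ := 5 ^ d with hK
  set small : Finset (Finset (Fin n)) :=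
    (Finset.univ : Finset (Fin n)).powerset.filter fun S => S.card ≤ d with hsmall
  set pairs : Finset (Finset (Fin n) × ℤ) := small ×ˢ Finset.Icc (-(2 ^ d : ℤ)) (2 ^ d)
    with hpairs
  have hcp : pairs.card ≤ (n + 1) ^ d * (2 * 2 ^ d + 1) := by
    rw [hpairs, Finset.card_product, Int.card_Icc]
    have h1 : small.card ≤ (n + 1) ^ d := by
      have := card_small (Finset.univ : Finset (Fin n)) d
      rw [Finset.card_univ, Fintype.card_fin] at this
      exact this
    have h2 : ((2 ^ d + 1 - -(2 ^ d : ℤ)).toNat) = 2 * 2 ^ d + 1 := by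
      have : (2 ^ d + 1 - -(2 ^ d : ℤ)) = ((2 * 2 ^ d + 1 : ℕ) : ℤ) := by push_cast; ring
      rw [this, Int.toNat_natCast]
    rw [h2]
    exact Nat.mul_le_mul_right _ h1
  choose! yy hyy using fun (f : Finset (Fin n) → Bool) (hf : HasDegree f d) =>
    exists_point' f d hf
  let Z : (Finset (Fin n) → Bool) → Finset (Finset (Fin n) × ℤ) := fun f =>
    ((Finset.univ : Finset (Finset (Fin n))).filter
      fun S => der f (yy f) S ≠ 0).image fun S => (S, der f (yy f) S)
  let target : Finset (Finset (Fin n) × Finset (Finset (Fin n) × ℤ)) :=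
    (Finset.univ : Finset (Finset (Fin n))) ×ˢ (pairs.powerset.filter fun Z => Z.card ≤ K)
  have hmem : ∀ f : {f : Finset (Fin n) → Bool // HasDegree f d},
      (yy f.1, Z f.1) ∈ target := by
    intro f
    refine Finset.mem_product.2 ⟨Finset.mem_univ _, ?_⟩
    rw [Finset.mem_filter, Finset.mem_powerset]
    refine ⟨?_, le_trans Finset.card_image_le (hyy f.1 f.2)⟩
    intro p hp
    obtain ⟨S, hS, rfl⟩ := Finset.mem_image.1 hp
    rw [Finset.mem_filter] at hS
    rw [hpairs, Finset.mem_product, hsmall, Finset.mem_filter, Finset.mem_powerset,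
      Finset.mem_Icc]
    have hSd : S.card ≤ d := by
      by_contra h
      exact hS.2 (der_zero f.1 d f.2 _ S (by omega))
    have h3 := abs_le.1 (abs_der_le f.1 (yy f.1) S)
    have h4 : (2 : ℤ) ^ S.card ≤ 2 ^ d := pow_le_pow_right₀ (by norm_num) hSd
    exact ⟨⟨Finset.subset_univ _, hSd⟩, by linarith [h3.1], by linarith [h3.2]⟩
  have hinj : Function.Injective fun f : {f : Finset (Fin n) → Bool // HasDegree f d} =>
      (⟨(yy f.1, Z f.1), hmem f⟩ : target) := by
    intro f g hfg
    have h5 : (yy f.1, Z f.1) = (yy g.1, Z g.1) := congrArg Subtype.val hfg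
    have hy : yy f.1 = yy g.1 := congrArg Prod.fst h5
    have hZ : Z f.1 = Z g.1 := congrArg Prod.snd h5
    apply Subtype.ext
    refine determined' f.1 g.1 (yy f.1) fun S => ?_
    by_cases h6 : der f.1 (yy f.1) S = 0
    · by_contra h7
      have h8 : der g.1 (yy g.1) S ≠ 0 := by
        rw [← hy]; intro h9; exact h7 (by rw [h6, h9])
      have h10 : (S, der g.1 (yy g.1) S) ∈ Z g.1 :=
        Finset.mem_image.2 ⟨S, Finset.mem_filter.2 ⟨Finset.mem_univ _, h8⟩, rfl⟩
      rw [← hZ] at h10
      obtain ⟨S', hS', he⟩ := Finset.mem_image.1 h10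
      have e1 : S' = S := congrArg Prod.fst he
      subst e1
      exact (Finset.mem_filter.1 hS').2 h6
    · have h10 : (S, der f.1 (yy f.1) S) ∈ Z f.1 :=
        Finset.mem_image.2 ⟨S, Finset.mem_filter.2 ⟨Finset.mem_univ _, h6⟩, rfl⟩
      rw [hZ] at h10
      obtain ⟨S', hS', he⟩ := Finset.mem_image.1 h10
      have e1 : S' = S := congrArg Prod.fst he
      have e2 : der g.1 (yy g.1) S' = der f.1 (yy f.1) S := congrArg Prod.snd he
      rw [← e2, e1, hy]
  have h11 := Nat.card_le_card_of_injective _ hinj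
  refine le_trans h11 ?_
  rw [Nat.card_eq_fintype_card, Fintype.card_coe]
  show ((Finset.univ : Finset (Finset (Fin n))) ×ˢ
    (pairs.powerset.filter fun Z => Z.card ≤ K)).card ≤ _
  rw [Finset.card_product, Finset.card_univ, Fintype.card_finset, Fintype.card_fin]
  refine Nat.mul_le_mul_left _ (le_trans (card_small pairs K) ?_)
  exact Nat.pow_le_pow_left (by omega) K

/-- The number of functions of sensitivity at most `s` that have degree at most `d` on a subcube
of codimension at most `k` around each `true` input. -/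
theorem local_card_le (n s k d : ℕ) :
    Nat.card {f : Finset (Fin n) → Bool // (∀ x, sens f x ≤ s) ∧
      ∀ x, f x = true → ∃ I : Finset (Fin n), I.card ≤ k ∧
        ∃ φ : Finset (Fin n) → Bool, HasDegree φ d ∧
          ∀ y, y ∩ I = x ∩ I → f y = φ y} ≤
      ((2 * n + 1) ^ k * (2 ^ n * ((n + 1) ^ d * (2 * 2 ^ d + 1) + 1) ^ 5 ^ d) + 1) ^
        2 ^ (2 * s + k) := by
  classical
  set S : Finset (Finset (Fin n) → Bool) := Finset.univ.filter fun φ => HasDegree φ d with hS
  have hScard : S.card ≤ 2 ^ n * ((n + 1) ^ d * (2 * 2 ^ d + 1) + 1) ^ 5 ^ d := by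
    refine le_trans (le_of_eq ?_) (degree_card_le n d)
    rw [Nat.card_eq_fintype_card, Fintype.card_subtype]
  refine le_trans (le_trans ?_ (cover_card_le (n := n) s k S)) ?_
  · refine Nat.card_le_card_of_injective
      (fun f => ⟨f.1, f.2.1, fun x hx => ?_⟩) ?_
    · obtain ⟨I, hI, φ, hφ, hIf⟩ := f.2.2 x hx
      refine ⟨(I.image fun i => (i, decide (i ∈ x)), φ), ?_, ?_, ?_⟩
      · unfold tests
        rw [Finset.mem_product, Finset.mem_filter, Finset.mem_powerset]
        exact ⟨⟨Finset.subset_univ _, le_trans Finset.card_image_le hI⟩,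
          Finset.mem_filter.2 ⟨Finset.mem_univ _, hφ⟩⟩
      · rw [mem_cell]
        intro p hp
        obtain ⟨i, _, rfl⟩ := Finset.mem_image.1 hp
        simp
      · intro y hy
        rw [mem_cell] at hy
        refine hIf y ?_
        ext i
        rw [Finset.mem_inter, Finset.mem_inter]
        constructor
        · rintro ⟨h1, h2⟩
          have := (hy (i, decide (i ∈ x)) (Finset.mem_image.2 ⟨i, h2, rfl⟩)).1 h1
          exact ⟨by simpa using this, h2⟩
        · rintro ⟨h1, h2⟩
          have := (hy (i, decide (i ∈ x)) (Finset.mem_image.2 ⟨i, h2, rfl⟩)).2 (by simpa using h1)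
          exact ⟨this, h2⟩
    · intro f g hfg
      simp only [Subtype.mk.injEq] at hfg
      exact Subtype.ext hfg
  · refine Nat.pow_le_pow_left ?_ _
    have := Nat.mul_le_mul_left ((2 * n + 1) ^ k) hScard
    omega

end Pool.Agent.Helper903_S
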